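import Pool.Agent.H.MP_023911_pr.B

open Filter Topology MeasureTheory ProbabilityTheory Set

namespace Pool.Agent.Results.MP_398e29_pr.AtCrit

/-- Value at the vertex `v` of the game with `t` moves left; `X u` is the cookie on the edge from
`u` to its parent, `B u` the boundary value at `u`, the children of `v` are the `c :: v`. -/
noncomputable def V {d : ℕ} (X B : List (Fin d) → ℤ) : ℕ → List (Fin d) → ℤ
  | 0, v => B v
  | t + 1, v =>
    if Even v.length then ⨆ c, X (c :: v) + V X B t (c :: v) else ⨅ c, X (c :: v) + V X B t (c :: v)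

/-- independent cookies and boundary values -/
def Model {d : ℕ} {Ω : Type} [MeasurableSpace Ω] (p : ℝ) (P : Measure Ω)
    (X B : List (Fin d) → Ω → ℤ) : Prop :=
  (∀ v, Measurable (X v)) ∧ (∀ v, Measurable (B v)) ∧ iIndepFun (Sum.elim X B) P ∧
    ∀ v, P.real {ω | X v ω = 1} = 1 / 2 ∧ P.real {ω | X v ω = -1} = 1 / 2 ∧
      P.real {ω | B v ω = 0} = p ∧ P.real {ω | B v ω = 2} = 1 - p

/-- the root values converge in distribution to the law of `Z` under `μ` -/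
def Conv {d : ℕ} {Ω : Type} [MeasurableSpace Ω] (P : Measure Ω) [IsProbabilityMeasure P]
    (X B : List (Fin d) → Ω → ℤ) (Z : ℤ → ℤ) (μ : ProbabilityMeasure ℤ) : Prop :=
  TendstoInDistribution (fun n ω => V (fun v => X v ω) (fun v => B v ω) (2 * n) []) atTop Z
    (fun _ => P) μ

noncomputable def Ψ (d : ℕ) (F : ℤ → ℝ) (i : ℤ) : ℝ :=
  (1 - (1 - (F (i - 2) + F i) / 2) ^ d / 2 - (1 - (F i + F (i + 2)) / 2) ^ d / 2) ^ d

def Stable (d : ℕ) (F : ℤ → ℝ) : Prop :=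
  ∃ t > 0, ∀ μ : ProbabilityMeasure ℤ, (∀ i, |(μ : Measure ℤ).real (Iic i) - F i| ≤ t) →
    ∀ i, Tendsto (fun n => (Ψ d)^[n] (fun j => (μ : Measure ℤ).real (Iic j)) i) atTop (𝓝 (F i))

theorem result : ∃ d₀ : ℕ, ∀ d ≥ d₀, ∀ (Ω : Type) [MeasurableSpace Ω] (P : ℝ → Measure Ω)
    [∀ p, IsProbabilityMeasure (P p)] (X B : List (Fin d) → Ω → ℤ),
    (∀ p ∈ Icc (0 : ℝ) 1, Model p (P p) X B) →
    ∀ L : ProbabilityMeasure ℤ, Conv (P 1) X B id L → ∀ pc ∈ Ioo (0 : ℝ) 1,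
    ((∀ p ∈ Icc (0 : ℝ) 1, (p < pc → Conv (P p) X B (fun x => x + 2) L) ∧ (pc < p → Conv (P p) X B id L)) ∨
      ∀ p ∈ Icc (0 : ℝ) 1, (p < pc → Conv (P p) X B id L) ∧ (pc < p → Conv (P p) X B (fun x => x + 2) L)) →
    ∃ ν : ProbabilityMeasure ℤ, Conv (P pc) X B id ν ∧
      Ψ d (fun i => (ν : Measure ℤ).real (Iic i)) = (fun i => (ν : Measure ℤ).real (Iic i)) ∧
      ¬ Stable d (fun i => (ν : Measure ℤ).real (Iic i)) ∧
      ν ≠ L ∧ (ν : Measure ℤ) ≠ (L : Measure ℤ).map fun x => x + 2 := by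
  have e : ∀ d (x b : List (Fin d) → ℤ) t v, V x b t v = Lib.helper3.MM.V x b t v := fun d x b t => by
    induction t with
    | zero => exact fun _ => rfl
    | succ t ih => intro v; simp only [V, Lib.helper3.MM.V, ih]
  obtain ⟨d₀, h⟩ := H.MP_023911_pr.all
  refine ⟨d₀, fun d hd Ω _ P _ X B m L hL pc hp c => ?_⟩
  obtain ⟨q, hq, μ, ν, n1, n2, n3, f, u, k⟩ := h d hd
  simp only [Conv, e] at hL c ⊢
  have i1 : (1 : ℝ) ∈ Icc (0 : ℝ) 1 := by simp
  have K := fun p hp => k p hp Ω (P p) X B (m p hp)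
  obtain rfl : μ = L := Subtype.ext (by
    simpa using tendstoInDistribution_unique _ ((K 1 i1).2.1 hq.2) hL)
  have no : ∀ {p}, TendstoInDistribution (fun n ω => Lib.helper3.MM.V (X · ω) (B · ω) (2 * n) []) atTop
      id (fun _ => P p) μ →
      ¬ TendstoInDistribution (fun n ω => Lib.helper3.MM.V (X · ω) (B · ω) (2 * n) []) atTop
        (fun x => x + 2) (fun _ => P p) μ := fun a b =>
    n1 (by simpa using tendstoInDistribution_unique _ a b)
  rcases c with c | c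
  · obtain rfl : pc = q := by
      by_contra ne
      have r : (pc + q) / 2 ∈ Icc (0 : ℝ) 1 := ⟨by linarith [hp.1, hq.1], by linarith [hp.2, hq.2]⟩
      rcases lt_or_gt_of_ne ne with l | l
      · exact no ((c _ r).2 (by linarith)) ((K _ r).1 (by linarith))
      · exact no ((K _ r).2.1 (by linarith)) ((c _ r).1 (by linarith))
    exact ⟨ν, (K pc ⟨hp.1.le, hp.2.le⟩).2.2 rfl, f, u, n2, n3⟩
  · exact (no hL ((c 1 i1).2 hp.2)).elim

end Pool.Agent.Results.MP_398e29_pr.AtCrit
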